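import Pool.Agent.X225.Dc.Core

/-!
The clique counting bound for graphs with an independent set and a closed part.
-/

namespace X225.Dc

open Finset

variable {V : Type*} [Fintype V] [DecidableEq V] {G : SimpleGraph V} [DecidableRel G.Adj] {δ : ℕ}

/-- Counting in a graph with an independent set `A` and a set `B` all of whose neighbours are
in `A ∪ B`. -/
lemma clique_count {m : ℕ} (hm : 1 ≤ m) (hδ : ∀ v, δ ≤ G.degree v)
    (hfree : G.CliqueFree (m + 2))
    (A B : Finset V) (hA : A.Nonempty) (hB : B.Nonempty)
    (hAi : ∀ x ∈ A, ∀ y ∈ A, ¬ G.Adj x y) (hN : ∀ x ∈ B, ∀ y, G.Adj x y → y ∈ A ∨ y ∈ B)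
    (hcard : A.card + 2 * B.card ≤ Fintype.card V) :
    (3 * m + 1) * δ ≤ 2 * m * Fintype.card V := by
  classical
  obtain ⟨K, hK, hmax⟩ := Finset.exists_max_image
    (B.powerset.filter fun K : Finset V => G.IsClique (K : Set V)) Finset.card ⟨∅, by simp⟩
  rw [mem_filter, mem_powerset] at hK
  obtain ⟨hKB, hKc⟩ := hK
  have hmax' : ∀ K' : Finset V, K' ⊆ B → G.IsClique (K' : Set V) → K'.card ≤ K.card :=
    fun K' h1 h2 => hmax K' (by rw [mem_filter, mem_powerset]; exact ⟨h1, h2⟩)
  have hs1 : 1 ≤ K.card := by
    obtain ⟨b, hb⟩ := hB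
    have := hmax' {b} (by simpa using hb) (by simp)
    simpa using this
  have hs2 : K.card ≤ m + 1 := by
    by_contra hcon
    obtain ⟨K', hK', hc⟩ := Finset.exists_subset_card_eq (show m + 2 ≤ K.card by omega)
    exact hfree K' ⟨hKc.subset (by exact_mod_cast hK'), hc⟩
  have hins : ∀ p, (∀ k ∈ K, G.Adj k p) → p ∉ K ∧ G.IsClique ((insert p K : Finset V) : Set V) := by
    intro p hp
    have h1 : p ∉ K := fun h => (hp p h).ne rfl
    refine ⟨h1, ?_⟩
    rw [Finset.coe_insert, SimpleGraph.isClique_insert]
    exact ⟨hKc, fun k hk _ => (hp k hk).symm⟩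
  have hcntB : ∀ p ∈ B, (K.filter fun k => G.Adj k p).card ≤ K.card - 1 := by
    intro p hp
    by_contra hcon
    have h1 : (K.filter fun k => G.Adj k p).card ≤ K.card := Finset.card_filter_le _ _
    have h2 : (K.filter fun k => G.Adj k p) = K :=
      Finset.eq_of_subset_of_card_le (Finset.filter_subset _ _) (by omega)
    rw [Finset.filter_eq_self] at h2
    obtain ⟨h3, h4⟩ := hins p h2
    have h5 := hmax' (insert p K) (by
      intro x hx
      rw [mem_insert] at hx
      rcases hx with rfl | hx
      · exact hp
      · exact hKB hx) h4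
    rw [card_insert_of_notMem h3] at h5
    omega
  have hcntA : ∀ p, (K.filter fun k => G.Adj k p).card ≤ if K.card ≤ m then K.card else m := by
    intro p
    split_ifs with h
    · exact Finset.card_filter_le _ _
    · by_contra hcon
      have h1 : (K.filter fun k => G.Adj k p).card ≤ K.card := Finset.card_filter_le _ _
      have h2 : (K.filter fun k => G.Adj k p) = K :=
        Finset.eq_of_subset_of_card_le (Finset.filter_subset _ _) (by omega)
      rw [Finset.filter_eq_self] at h2
      obtain ⟨h3, h4⟩ := hins p h2
      exact hfree _ ⟨h4, by rw [card_insert_of_notMem h3]; omega⟩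
  have hsum : K.card * δ ≤ ∑ p : V, (K.filter fun k => G.Adj k p).card := by
    calc K.card * δ = ∑ _k ∈ K, δ := by rw [sum_const, smul_eq_mul]
      _ ≤ ∑ k ∈ K, G.degree k := sum_le_sum fun k _ => hδ k
      _ = ∑ k ∈ K, ∑ p : V, (if G.Adj k p then 1 else 0) := by
        refine sum_congr rfl fun k _ => degree_eq_sum G k
      _ = ∑ p : V, ∑ k ∈ K, (if G.Adj k p then 1 else 0) := sum_comm
      _ = ∑ p : V, (K.filter fun k => G.Adj k p).card := by
        refine sum_congr rfl fun p _ => ?_
        rw [Finset.card_filter]
  have hbound : ∑ p : V, (K.filter fun k => G.Adj k p).card ≤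
      B.card * (K.card - 1) + A.card * (if K.card ≤ m then K.card else m) := by
    calc ∑ p : V, (K.filter fun k => G.Adj k p).card
        ≤ ∑ p : V, ((if p ∈ B then (K.card - 1) else 0) +
          (if p ∈ A then (if K.card ≤ m then K.card else m) else 0)) := by
          refine sum_le_sum fun p _ => ?_
          by_cases hpB : p ∈ B
          · rw [if_pos hpB]
            exact (hcntB p hpB).trans (Nat.le_add_right _ _)
          · by_cases hpA : p ∈ A
            · rw [if_pos hpA]
              exact (hcntA p).trans (Nat.le_add_left _ _)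
            · rw [if_neg hpB, if_neg hpA]
              have : (K.filter fun k => G.Adj k p) = ∅ := by
                rw [Finset.filter_eq_empty_iff]
                intro k hk hadj
                rcases hN k (hKB hk) p hadj with h | h
                · exact hpA h
                · exact hpB h
              rw [this]
              simp
      _ = B.card * (K.card - 1) + A.card * (if K.card ≤ m then K.card else m) := by
          rw [sum_add_distrib, ← sum_filter, ← sum_filter, sum_const, sum_const, smul_eq_mul,
            smul_eq_mul]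
          congr 2 <;> congr 1 <;> ext x <;> simp
  have hdA : A.card + δ ≤ Fintype.card V := by
    obtain ⟨a, ha⟩ := hA
    exact card_missed hδ a A (fun x hx => hAi a ha x hx)
  have hdB : δ ≤ A.card + B.card := by
    obtain ⟨b, hb⟩ := hB
    have h1 : (G.neighborFinset b) ⊆ A ∪ B := by
      intro x hx
      rw [SimpleGraph.mem_neighborFinset] at hx
      rw [mem_union]
      exact hN b hb x hx
    have h2 := Finset.card_le_card h1
    have h3 := Finset.card_union_le A B
    have h4 := hδ b
    rw [← G.card_neighborFinset_eq_degree] at h4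
    omega
  have hfin := hsum.trans hbound
  obtain ⟨s, hs⟩ : ∃ s, K.card = s + 1 := ⟨K.card - 1, by omega⟩
  rw [hs] at hfin hs2
  simp only [Nat.add_sub_cancel] at hfin
  generalize A.card = α at *
  generalize B.card = β at *
  generalize Fintype.card V = n at *
  split_ifs at hfin with hc
  · -- (s+1) δ ≤ s β + (s+1) α
    obtain ⟨t, rfl⟩ : ∃ t, m = s + 1 + t := ⟨m - (s + 1), by omega⟩
    have h1 : (s + 1 + t) * δ ≤ (s + t) * β + (s + 1 + t) * α := by nlinarith
    nlinarith
  · have hsm : s = m := by omega
    subst hsm
    nlinarith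

end X225.Dc
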